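import Pool.Agent.TH131.Ord.Density

/-!
# Ordinary places of positive density and finite families of cubic hypersurfaces
-/

set_option autoImplicit false

open CategoryTheory AlgebraicGeometry IsDedekindDomain NumberField

namespace Pool.Agent.Results.MP_17d720_ag.CubicFamilies

open Pool.Agent.TH90.Cub Pool.Agent.TH590.JH Pool.Agent.TH131.Ord

universe v u

/-- **Ordinary places and cubic hypersurfaces.** Let `K` be a number field, `S` a subset containing `1`
which generates the field `K`. The following are equivalent:

* every smooth projective scheme over `K` is ordinary at a set of places of positive lower density;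
* for every finite family of hypersurfaces `C` with an equation `g_0 t_0 + ⋯ + g_r t_r = 1` in the
  affine space over `K` with the coordinates `x_1, …, x_n, t_0, …, t_r`, each `g_i` being of the form
  `x_a x_b - x_c`, `x_a + x_b - x_c` or `x_a - s`, `s ∈ S`, and degrees `j`, there is a set of places
  of positive lower density where for all members of the family the Newton polygon of `H_c^j(C)` is
  its Hodge polygon.

If they hold, then for every finite family of separated schemes of finite type over `K` there is a set
of places of positive lower density where the Newton polygons of all their cohomology groups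
with compact supports are the Hodge polygons. The hypersurfaces `C` are smooth over `K`. -/
theorem result (K : Type) [Field K] [NumberField K] (S : Set K) (hS : Subfield.closure S = ⊤)
    (h1 : (1 : K) ∈ S) {𝓐 : Type u} [Category.{v} 𝓐] [Abelian 𝓐] (T : WeightTheory K 𝓐)
    (𝒮 : Slopes T.toTheory (Filter.cofinite : Filter (HeightOneSpectrum (𝓞 K))))
    (hfin : IsFinite T.toTheory) :
    (𝒮.ForProjective (PositiveDensity (placeNorm K)) ↔
      𝒮.ForCubics S (PositiveDensity (placeNorm K))) ∧
    (𝒮.ForProjective (PositiveDensity (placeNorm K)) →
      𝒮.ForFamilies (PositiveDensity (placeNorm K))) ∧
    CubicsSmooth K := by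
  have : Infinite (HeightOneSpectrum (𝓞 K)) := infinite_places K
  have h := main T 𝒮 hfin _ (stable_density (placeNorm K) (finite_norm K)) hS h1
  exact ⟨h.1, h.2, cubicsSmooth K⟩

end Pool.Agent.Results.MP_17d720_ag.CubicFamilies
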