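import Pool.Agent.TH30.Ord.Bounds

/-!
# Lower bounds for the `p`-rank of the reductions of abelian varieties with multiplications

`K₀` is a number field and `B` an abelian variety over `K₀` of dimension `g`, with Frobenius polynomials
`F v₀`. Over a finite extension `K` of `K₀` (over which the `ℓ`-adic monodromy groups are connected, for
one prime `ℓ`) `B` is isogenous to the product of the `m i`-th powers of abelian varieties `A i` with
multiplication by totally real or CM fields `E i` of degree `d i`; `n i` is the rank of the Tate module of
`A i` over `E i`, and `r i σ` is the multiplicity of the Hodge slope `0` in the `σ`-part, for `σ : E i → K̄`.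

No orbit condition is imposed. For a place `v` of `K` of degree one and a maximal ideal `Q` above `v` of the
ring of all algebraic integers let `f σ` be the multiplicity of the slope `0` in the `σ`-part of the
Frobenius polynomial at `Q`; it is at most `r σ`, and the `p`-rank of the reduction at `v` is the sum of
the `m i * f σ`. An embedding `σ` fails at `j` if `f σ < j ≤ r σ`; the reduction is ordinary if and only if
no embedding fails. The Hodge defect at `j` is the sum over all `σ` of `j - 2 max (0, j - r σ)`.

Theorem.

1. At a set of places of `K` of density one, for every `A i` which has an embedding with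
   `0 < r σ < n`, every `0 < j < n` and every `Q`, the number of the embeddings which fail at `j` is
   smaller than half the Hodge defect at `j`. The set of these embeddings is stable under the Frobenius
   elements at `Q`; so the `p`-rank is at least `g - Σ m i * stableMax (A i) γ j`, for all Frobenius
   elements `γ` at `v`, where `stableMax (A i) γ j` is the largest number of elements of a `γ`-stable
   set of embeddings with `j ≤ r σ` which has fewer elements than half the Hodge defect at `j`.
2. If all `A i` have an embedding with `0 < r σ < n`, then at a set of places of `K` of density one the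
   `p`-rank of the reduction is at least the sum of the `m i * lowerBound (A i)`, where
   `lowerBound (A i)` is `⌊d / 2⌋ + 1`, and `⌊d / 2⌋ + 2 + #{σ | r σ = 0}` if `3 ≤ n`.
3. For every element `γ` of the absolute Galois group of `K` the places of `K₀` at which the reduction of
   `B` has `p`-rank at least `g - Σ m i * stableMax (A i) γ j` have positive lower density.

Examples.

* If `B` has real multiplication by a field of degree `g` (over `K`), then the `p`-rank of the reduction is
  larger than `g / 2` at a set of places of `K` of density one. (Before, only the bound `2` was known, and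
  ordinary reduction at a set of places of positive density if some Galois element has only orbits with at
  least `g / 2` elements.)
* If `B` is the abelian variety of a newform of weight two with trivial character and without inner
  twists, whose field of coefficients is Galois over `ℚ` of degree `g`, and if its Galois group has an
  element of order `t`, then the `p`-rank is at least `g - t ⌊(g - 1) / (2 t)⌋` at a set of primes of
  positive lower density (at least `6` if `g = 8`, for instance, for all Galois groups).
* If all Hodge defects are at most `2`, the reduction is ordinary at a set of places of density one.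
-/

set_option autoImplicit false

namespace Pool.Agent.Results.MP_17d720_ag.PRankLowerBound

open NumberField IsDedekindDomain Polynomial Filter Topology
open Pool.Agent.W401.Cheb Pool.Agent.W528.Ord Pool.Agent.TH30.Ord
open Pool.Agent.W528.Ord.MultSystem (IsDeg1)

theorem result (K₀ K : Type) [Field K₀] [NumberField K₀] [Field K] [NumberField K] [Algebra K₀ K]
    (ℓ : ℕ) [Fact ℓ.Prime] {ι : Type} [Fintype ι]
    -- the abelian varieties `A i` over `K`
    (A : ι → MultSystem K ℓ) (m : ι → ℕ) (χ : GK K →* (PadicAlgCl ℓ)ˣ) (S : Finset ℕ)
    (hA : ∀ i, (A i).IsAbelian χ S)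
    -- the abelian variety over `K₀`, of dimension `g`
    (g : ℕ) (hg : 2 * g = ∑ i, m i * ((A i).n * Module.finrank ℚ (A i).E))
    (F : HeightOneSpectrum (𝓞 K₀) → ℤ[X])
    (hF : ∀ (v₀ : HeightOneSpectrum (𝓞 K₀)) (v : HeightOneSpectrum (𝓞 K)),
      v.asIdeal.comap (algebraMap (𝓞 K₀) (𝓞 K)) = v₀.asIdeal → IsDeg1 S v →
      (F v₀).map (Int.castRingHom (AlgebraicClosure K)) = MultSystem.prodPoly A m v) :
    -- a set of places of `K` of density one
    Tendsto (ratio fun v : HeightOneSpectrum (𝓞 K) => GoodPlace A S v ∧
      ∀ v₀ : HeightOneSpectrum (𝓞 K₀), v.asIdeal.comap (algebraMap (𝓞 K₀) (𝓞 K)) = v₀.asIdeal →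
      (∀ γ : GK K, IsFrob v γ → g ≤ pRank (Ideal.absNorm v₀.asIdeal) (F v₀) + totalMax A m γ) ∧
      ((∀ i, ∃ σ, 0 < (A i).r σ ∧ (A i).r σ < (A i).n) →
        ∑ i, m i * lowerBound (A i) ≤ pRank (Ideal.absNorm v₀.asIdeal) (F v₀))) atTop (𝓝 1) ∧
    -- for every element of the Galois group a set of places of `K₀` of positive lower density
    ∀ γ : GK K, 0 < lowerDensity fun v₀ : HeightOneSpectrum (𝓞 K₀) => IsDeg1 S v₀ ∧
      g ≤ pRank (Ideal.absNorm v₀.asIdeal) (F v₀) + totalMax A m γ := by
  have key : ∀ v, GoodPlace A S v → ∀ v₀ : HeightOneSpectrum (𝓞 K₀),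
      v.asIdeal.comap (algebraMap (𝓞 K₀) (𝓞 K)) = v₀.asIdeal → ∀ γ : GK K, IsFrob v γ →
      g ≤ pRank (Ideal.absNorm v₀.asIdeal) (F v₀) + totalMax A m γ := by
    rintro v hv v₀ h0 γ ⟨Q, hQ, hQv, hγ⟩
    rw [under_norm v hv.1.1 v₀ h0]
    exact pRank_ge A m χ S hA hv ⟨hQ, hQv⟩ hγ g hg (F v₀) (hF v₀ v h0 hv.1)
  refine ⟨?_, ?_⟩
  · apply ratio_one
    refine squeeze_zero (fun N => dens_nonneg _ _) (fun N => dens_mono ?_ N) (dens_good A χ S hA)
    intro v hv hg'
    apply hv
    refine ⟨hg', fun v₀ h0 => ⟨key v hg' v₀ h0, fun hind => ?_⟩⟩
    obtain ⟨γ, Q, hQ, hQv, hγ⟩ := exists_isFrob v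
    rw [under_norm v hg'.1.1 v₀ h0]
    exact explicit A m χ S hA hg' ⟨hQ, hQv⟩ hind (F v₀) (hF v₀ v h0 hg'.1)
  · intro γ₀
    obtain ⟨δ, hδ, hev⟩ := lower_K A χ S hA γ₀
    have hd : (0 : ℝ) < (Module.finrank ℚ K : ℝ) := by exact_mod_cast Module.finrank_pos
    apply lowerDensity_pos _ (δ / (Module.finrank ℚ K : ℝ)) (by positivity)
    filter_upwards [hev] with N hN
    have h1 := dens_under (K₀ := K₀) (fun v : HeightOneSpectrum (𝓞 K) => GoodPlace A S v ∧
        ∃ γ : GK K, IsFrob v γ ∧ ∀ i j, stableMax (A i) γ j ≤ stableMax (A i) γ₀ j)
        (fun v₀ : HeightOneSpectrum (𝓞 K₀) => IsDeg1 S v₀ ∧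
          g ≤ pRank (Ideal.absNorm v₀.asIdeal) (F v₀) + totalMax A m γ₀)
        (fun v hv => hv.1.1.1) (fun v v₀ hv h0 => by
          obtain ⟨hgood, γ, hγ, hle⟩ := hv
          have e := under_norm v hgood.1.1 v₀ h0
          refine ⟨?_, ?_⟩
          · unfold IsDeg1
            rw [e]
            exact hgood.1
          · refine (key v hgood v₀ h0 γ hγ).trans (Nat.add_le_add_left ?_ _)
            unfold totalMax
            apply Finset.sum_le_sum
            intro i _
            apply Nat.mul_le_mul_left
            apply Finset.sum_le_sum
            intro j _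
            exact hle i j) N
    rw [div_le_iff₀ hd, mul_comm]
    exact hN.trans h1

end Pool.Agent.Results.MP_17d720_ag.PRankLowerBound
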